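import Pool.Agent.Lib.helper21.NA3

set_option maxHeartbeats 400000

open Set

namespace Pool.Agent.Results.MP_7aa09c_an.Q2

/-- the Bishop-Phelps-Bollobas property of the pair (X, Y) -/
def BPBp (X Y : Type) [NormedAddCommGroup X] [NormedSpace ℝ X] [NormedAddCommGroup Y]
    [NormedSpace ℝ Y] : Prop :=
  ∀ ε : ℝ, 0 < ε → ∃ η : ℝ, 0 < η ∧ ∀ (T : X →L[ℝ] Y) (x₀ : X), ‖T‖ = 1 → ‖x₀‖ = 1 →
    1 - η < ‖T x₀‖ → ∃ (x : X) (S : X →L[ℝ] Y), ‖x‖ = 1 ∧ ‖S‖ = 1 ∧ ‖S x‖ = 1 ∧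
      ‖x - x₀‖ < ε ∧ ‖S - T‖ < ε

/-- Y₁ is a closed subspace of Y and the range of a linear projection of norm one -/
def OneCompl {Y : Type} [NormedAddCommGroup Y] [NormedSpace ℝ Y] (Y₁ : Submodule ℝ Y) : Prop :=
  IsClosed (Y₁ : Set Y) ∧
    ∃ P : Y →L[ℝ] Y, (∀ y, P (P y) = P y) ∧ range P = (Y₁ : Set Y) ∧ ‖P‖ = 1

theorem result :
    ∃ (X : Type) (_ : NormedAddCommGroup X) (_ : NormedSpace ℝ X) (_ : CompleteSpace X)
      (Y : Type) (_ : NormedAddCommGroup Y) (_ : NormedSpace ℝ Y) (_ : CompleteSpace Y)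
      (Y₁ : Submodule ℝ Y), OneCompl Y₁ ∧ BPBp X Y ∧ ¬ BPBp X Y₁ :=
  open Pool.Agent.Lib.Helper21 NA2 in
  ⟨ℝ × ℝ, inferInstance, inferInstance, inferInstance, Y, inferInstance, inferInstance,
    inferInstance, P.range, ⟨P_closed, P, PP, rfl, P_norm⟩, NA3.fin_pos,
    NA3.q2neg io io_norm io_surj⟩

end Pool.Agent.Results.MP_7aa09c_an.Q2
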